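import Pool.Agent.H94.LH.Stmts

/-!
# SUP: choice of the common part of the supports
-/

set_option autoImplicit false

namespace Pool.LH

open Finset

theorem sup_thm : S_SUP := by
  classical
  intro α _ V0 U a hV0 ha
  set B : Finset ℕ := V0.biUnion U with hB
  set val : Finset ℕ → ℝ := fun Z =>
    ((V0.filter (fun v => Z ⊆ U v)).card : ℝ) * ∏ p ∈ Z, a p with hval
  obtain ⟨Z, hZ, hmax⟩ := B.powerset.exists_max_image val ⟨∅, by simp⟩
  have hpos : ∀ W : Finset ℕ, 1 ≤ ∏ p ∈ W, a p := by
    intro W
    induction W using Finset.induction_on with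
    | empty => simp
    | insert p s hp ih =>
      rw [Finset.prod_insert hp]
      exact one_le_mul_of_one_le_of_one_le (ha p) ih
  have h0 : val ∅ = V0.card := by simp [hval]
  have h1 : (V0.card : ℝ) ≤ val Z := by
    rw [← h0]
    exact hmax ∅ (by simp)
  have hc : (0 : ℝ) < V0.card := by exact_mod_cast hV0.card_pos
  refine ⟨Z, V0.filter (fun v => Z ⊆ U v), Finset.filter_subset _ _, ?_, ?_, h1, ?_⟩
  · by_contra hne
    rw [Finset.not_nonempty_iff_eq_empty] at hne
    have : val Z = 0 := by simp [hval, hne]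
    linarith
  · intro v hv
    exact (Finset.mem_filter.1 hv).2
  · intro W hW
    by_cases hsub : W ⊆ B
    · have h2 := hmax (Z ∪ W) (by
        rw [Finset.mem_powerset] at hZ ⊢
        exact Finset.union_subset hZ hsub)
      have e1 : ((V0.filter (fun v => Z ⊆ U v)).filter (fun v => W ⊆ U v)) =
          V0.filter (fun v => Z ∪ W ⊆ U v) := by
        ext v
        simp [Finset.mem_filter, Finset.union_subset_iff, and_assoc]
      rw [e1]
      have e2 : val (Z ∪ W) = ((V0.filter (fun v => Z ∪ W ⊆ U v)).card : ℝ) *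
          ((∏ p ∈ Z, a p) * ∏ p ∈ W, a p) := by
        simp only [hval]
        rw [Finset.prod_union hW.symm]
      rw [e2] at h2
      have h3 : (((V0.filter (fun v => Z ∪ W ⊆ U v)).card : ℝ) * ∏ p ∈ W, a p) *
          (∏ p ∈ Z, a p) ≤ ((V0.filter (fun v => Z ⊆ U v)).card : ℝ) * ∏ p ∈ Z, a p := by
        calc _ = ((V0.filter (fun v => Z ∪ W ⊆ U v)).card : ℝ) *
              ((∏ p ∈ Z, a p) * ∏ p ∈ W, a p) := by ring
          _ ≤ _ := h2
      exact le_of_mul_le_mul_right h3 (lt_of_lt_of_le one_pos (hpos Z))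
    · have e3 : ((V0.filter (fun v => Z ⊆ U v)).filter (fun v => W ⊆ U v)) = ∅ := by
        rw [Finset.filter_eq_empty_iff]
        intro v hv hWU
        exact hsub (hWU.trans (Finset.subset_biUnion_of_mem U (Finset.mem_filter.1 hv).1))
      rw [e3]
      simp

end Pool.LH
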